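import Pool.Agent.LibAC34.G
import Pool.Agent.LibAC34.Stmt
import Pool.Agent.LibAC84.Alg

/-!
Assembly: geometry and algebra give the theorem on cycles of all dimensions.
-/

open WeierstrassCurve Pool.Agent.LibBH2 Pool.Agent.LibIG50 Pool.Agent.LibCHd Pool.Agent.LibGG
  Pool.Agent.LibAC34
open scoped Classical

namespace Pool.Agent.LibAC6

variable {k : Type} [Field k]

theorem lin_eq_trl {L K : Type} [Field L] [Algebra k L] [Field K] [Algebra k K]
    (l : L →ₐ[k] K) {D r : ℕ} {V : Fin D → WeierstrassCurve k} {W : Fin r → WeierstrassCurve k}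
    {Y : Prj k} (ξ : ∀ a, ((V a)⁄K).toAffine.Point) (N : Matrix (Fin r) (Fin D) ℤ) (g : Pts W)
    (u : Pnt W Y L) : lin l ξ N g u = trl g (lin l ξ N 0 u) := by
  unfold lin
  generalize Pnt.add (fun i => ∑ a, N i a • tr (V a) (W i) (ξ a)) (u.map l) = X
  refine pnt_ext (funext fun i => ?_) rfl
  show constPt K (g i) + X.z i = constPt K (g i) + ((0 : ((W i)⁄K).toAffine.Point) + X.z i)
  rw [zero_add]

/-- additivity in `g` on the grid, modulo torsion -/
theorem cl_add {Γ : Grid} (hΓ : Orth Γ) {r : ℕ} {W : Fin r → WeierstrassCurve Qb}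
    (hW : ∀ i, (W i).IsElliptic) {D : ℕ} {V : Fin D → WeierstrassCurve Qb} {Y : Prj Qb} {m : ℕ}
    {L K : Type} [Field L] [Algebra Qb L] [Field K] [Algebra Qb K] (u : Pnt W Y L)
    (l : L →ₐ[Qb] K) (ξ : ∀ a, ((V a)⁄K).toAffine.Point) (hK : FunF Qb m K)
    (N : Matrix (Fin r) (Fin D) ℤ) (g h : Pts W) (hg : ∀ i, g i ∈ Γ (W i))
    (hh : ∀ i, h i ∈ Γ (W i)) :
    IsOfFinAddOrder (cl l m ξ u N (g + h) - cl l m ξ u N g - cl l m ξ u N h +
      cl l m ξ u N 0) := by
  set A : (Pts W →₀ ℤ) →+ CH W Y m :=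
    (QuotientAddGroup.mk' (RatEq W Y m)).comp (actC (lin l ξ N 0 u)) with hA
  have hact : ∀ c : Pts W →₀ ℤ, act m c (lin l ξ N 0 u) = A c := fun c => rfl
  have e : ∀ g : Pts W, cl l m ξ u N g = A (Finsupp.single g 1) := by
    intro g
    rw [hA, AddMonoidHom.comp_apply, actC_single, one_smul, ← lin_eq_trl]
    rfl
  set c : Pts W →₀ ℤ := Finsupp.single (g + h) 1 + -Finsupp.single g 1 + -Finsupp.single h 1 +
    Finsupp.single 0 1 with hc
  have e1 : cl l m ξ u N (g + h) - cl l m ξ u N g - cl l m ξ u N h + cl l m ξ u N 0 =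
      act m c (lin l ξ N 0 u) := by
    rw [hact, hc, map_add, map_add, map_add, map_neg, map_neg, ← e, ← e, ← e, ← e]
    abel
  rw [e1]
  refine hΓ r W hW Y m K hK _ c ?_ ?_ ?_
  · intro a ha i
    have h1 : a = g + h ∨ a = g ∨ a = h ∨ a = 0 := by
      by_contra hn
      push Not at hn
      obtain ⟨h1, h2, h3, h4⟩ := hn
      apply Finsupp.mem_support_iff.1 ha
      rw [hc]
      simp [h1.symm, h2.symm, h3.symm, h4.symm]
    rcases h1 with rfl | rfl | rfl | rfl
    · exact add_mem (hg i) (hh i)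
    · exact hg i
    · exact hh i
    · exact zero_mem _
  · have h1 : ∀ c c' : Pts W →₀ ℤ, ((c + c').sum fun _ n => n) = (c.sum fun _ n => n) +
        c'.sum fun _ n => n := fun c c' =>
      Finsupp.sum_add_index' (fun _ => rfl) (fun _ _ _ => rfl)
    have h2 : ∀ c : Pts W →₀ ℤ, ((-c).sum fun _ n => n) = -(c.sum fun _ n => n) := by
      intro c
      rw [Finsupp.sum_neg_index (fun _ => rfl)]
      simp [Finsupp.sum]
    rw [hc, h1, h1, h1, h2, h2]
    simp
  · intro i
    set S : (Pts W →₀ ℤ) →+ (W i).toAffine.Point :=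
      Finsupp.liftAddHom (fun a => (zmultiplesHom _) (a i)) with hS
    have hS1 : ∀ c : Pts W →₀ ℤ, (c.sum fun a n => n • a i) = S c := fun c => rfl
    have hS2 : ∀ a : Pts W, S (Finsupp.single a 1) = a i := by
      intro a
      rw [hS, Finsupp.liftAddHom_apply_single]
      exact one_zsmul (a i)
    rw [hS1, hc, map_add, map_add, map_add, map_neg, map_neg, hS2, hS2, hS2, hS2]
    have h3 : (g + h) i + -g i + -h i + (0 : Pts W) i = 0 := by
      rw [Pi.add_apply, Pi.zero_apply]
      abel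
    rw [h3]
    exact IsOfFinAddOrder.zero

theorem cst_coe (Γ : Grid) (E E' : WeierstrassCurve Qb) (x : Γ E) :
    ((LibAC84.cst (G := fun E => Γ E) E E' x : Γ E') : E'.toAffine.Point) =
      trk E E' (x : E.toAffine.Point) := by
  unfold LibAC84.cst trk
  by_cases h : E = E'
  · subst h
    rw [dif_pos rfl, dif_pos rfl]
  · rw [dif_neg h, dif_neg h]
    rfl

/-- **Cycles of all dimensions.** -/
theorem all_dim {Γ : Grid} (hΓ : Orth Γ) : AllDim Γ := by
  intro r W hW D V hV Y e L _ _ u K _ _ l ξ hgen J _ m N g hN hg hom AJ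
  set F : Matrix (Fin r) (Fin D) ℤ → (∀ i, Γ (W i)) → CH W Y (e + D) :=
    fun N g => cl l (e + D) ξ u N (fun i => (g i : (W i).toAffine.Point)) with hFdef
  have hF : LibAC84.Fam (G := fun E => Γ E) W V F := by
    constructor
    · intro N _ a v w _ _ g
      exact G_par hW hV hgen u N _ a v w
    · intro N _ a b hab hVab g
      exact G_col hgen u N _ a b hab hVab
    · intro N _ a c
      have h1 := G_tr hgen u N 0 a (c : (V a).toAffine.Point)
      have h2 : (fun i => ((N i a • LibAC84.cst (G := fun E => Γ E) (V a) (W i) c : Γ (W i)) :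
          (W i).toAffine.Point)) = (0 : Pts W) +
            fun n => N n a • trk (V a) (W n) (c : (V a).toAffine.Point) := by
        funext i
        rw [Pi.add_apply, Pi.zero_apply, zero_add, AddSubgroup.coe_zsmul, cst_coe]
      show cl l (e + D) ξ u N (fun i => ((N i a • LibAC84.cst (G := fun E => Γ E) (V a) (W i) c :
        Γ (W i)) : (W i).toAffine.Point)) = cl l (e + D) ξ u N _
      rw [h2]
      exact h1
    · intro N _ g h
      exact cl_add hΓ hW u l ξ hgen.dim N _ _ (fun i => (g i).2) (fun i => (h i).2)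
  refine LibAC84.main (G := fun E => Γ E) hF Finset.univ m N (fun j i => ⟨g j i, hg j i⟩)
    (fun j _ i a h => hN j i a (Ne.symm h))
    (fun M hM => hom M (fun i a h => hM i a (Ne.symm h))) ?_
  intro M hM E z hz
  have h2 := AJ M (fun i a h => hM i a (Ne.symm h)) E z hz
  rw [← AddSubmonoid.isOfFinAddOrder_coe (H := (Γ E).toAddSubmonoid)]
  refine cast (congrArg IsOfFinAddOrder ?_) h2
  rw [AddSubgroup.val_finsetSum]
  refine Finset.sum_congr rfl fun j _ => ?_
  rw [AddSubgroup.coe_zsmul, AddSubgroup.val_finsetSum, bdet]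
  refine congrArg _ (Finset.sum_congr rfl fun i _ => ?_)
  rw [AddSubgroup.coe_zsmul, cst_coe]
  rfl

end Pool.Agent.LibAC6
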