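import Mathlib

/-!
Derivations of fields of characteristic zero.
-/

open scoped Classical TensorProduct

namespace Pool.Agent.LibAC6

/-- a derivation of a field which is algebraic over the rational functions in one element `t` -/
theorem exists_der {M F : Type} [Field M] [CharZero M] [Field F] [Algebra M F] (t : F)
    (ht : Transcendental M t)
    (hF : Algebra.IsAlgebraic (IntermediateField.adjoin M {t}) F) :
    ∃ D : Derivation M F F, D t = 1 := by
  let A := Polynomial M
  let φ : A →ₐ[M] F := Polynomial.aeval t
  have hφ : Function.Injective φ := transcendental_iff_injective.1 ht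
  let _ : Algebra A F := φ.toRingHom.toAlgebra
  have hst : IsScalarTower M A F := IsScalarTower.of_algebraMap_eq fun c => (φ.commutes c).symm
  let Fr := FractionRing A
  let ψ : Fr →+* F := IsFractionRing.lift (A := A) (K := Fr) (g := φ.toRingHom) hφ
  have hψ : ∀ a : A, ψ (algebraMap A Fr a) = φ a := fun a =>
    IsFractionRing.lift_algebraMap (A := A) (K := Fr) (g := φ.toRingHom) hφ a
  let _ : Algebra Fr F := ψ.toAlgebra
  have hst2 : IsScalarTower A Fr F := IsScalarTower.of_algebraMap_eq fun a => (hψ a).symm
  have hst3 : IsScalarTower M Fr F := IsScalarTower.of_algebraMap_eq fun a => by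
    rw [IsScalarTower.algebraMap_apply M A Fr, IsScalarTower.algebraMap_apply M A F]
    exact (hψ _).symm
  have hc : CharZero Fr := charZero_of_injective_algebraMap (algebraMap M Fr).injective
  have halg : Algebra.IsAlgebraic Fr F := by
    constructor
    intro x
    have h1 : IsAlgebraic (IntermediateField.adjoin M {t}) x := hF.isAlgebraic x
    have hmem : ∀ z : IntermediateField.adjoin M {t}, ∃ c : Fr, ψ c = z := by
      rintro ⟨z, hz⟩
      have h2 : IntermediateField.adjoin M {t} ≤
          (IsScalarTower.toAlgHom M Fr F).fieldRange := by
        rw [IntermediateField.adjoin_le_iff]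
        intro y hy
        rw [Set.mem_singleton_iff] at hy
        subst hy
        refine ⟨algebraMap A Fr Polynomial.X, ?_⟩
        exact (hψ _).trans (Polynomial.aeval_X _)
      obtain ⟨c, hc⟩ := h2 hz
      exact ⟨c, hc⟩
    choose c hc using hmem
    have hinj : Function.Injective ψ := ψ.injective
    let χ : IntermediateField.adjoin M {t} →+* Fr :=
      { toFun := c
        map_one' := hinj (by rw [hc, map_one]; rfl)
        map_mul' := fun a b => hinj (by rw [hc, map_mul, hc, hc]; rfl)
        map_zero' := hinj (by rw [hc, map_zero]; rfl)
        map_add' := fun a b => hinj (by rw [hc, map_add, hc, hc]; rfl) }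
    have h3 : IsIntegral Fr (RingHom.id F x) :=
      h1.isIntegral.map_of_comp_eq χ (RingHom.id F) (by ext z; exact hc z)
    exact h3.isAlgebraic
  have h1 : Algebra.FormallyEtale A Fr :=
    Algebra.FormallyEtale.of_isLocalization (nonZeroDivisors A)
  have h2 : Algebra.FormallyEtale Fr F := Algebra.FormallyEtale.of_isSeparable Fr F
  have h3 : Algebra.FormallyEtale A F := Algebra.FormallyEtale.comp A Fr F
  let D0 : Derivation M A F := Polynomial.mkDerivation M 1
  let e := KaehlerDifferential.tensorKaehlerEquivOfFormallyEtale M A F
  let L : F ⊗[A] Ω[A⁄M] →ₗ[F] F := LinearMap.liftBaseChange F D0.liftKaehlerDifferential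
  let D : Derivation M F F := (L.comp e.symm.toLinearMap).compDer (KaehlerDifferential.D M F)
  refine ⟨D, ?_⟩
  have ht' : t = algebraMap A F Polynomial.X := (Polynomial.aeval_X t).symm
  show L (e.symm (KaehlerDifferential.D M F t)) = 1
  rw [ht', KaehlerDifferential.tensorKaehlerEquivOfFormallyEtale_symm_D_algebraMap]
  show LinearMap.liftBaseChange F D0.liftKaehlerDifferential _ = 1
  rw [LinearMap.liftBaseChange_tmul, one_smul, Derivation.liftKaehlerDifferential_comp_D]
  exact Polynomial.mkDerivation_X _ _

/-- the elements killed by a derivation -/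
def cons {k F : Type} [Field k] [Field F] [Algebra k F] (D : Derivation k F F) :
    IntermediateField k F where
  carrier := {z | D z = 0}
  mul_mem' := by
    intro a b ha hb
    show D (a * b) = 0
    rw [Derivation.leibniz, show D a = 0 from ha, show D b = 0 from hb, smul_zero, smul_zero,
      add_zero]
  add_mem' := by
    intro a b ha hb
    show D (a + b) = 0
    rw [map_add, show D a = 0 from ha, show D b = 0 from hb, add_zero]
  algebraMap_mem' := fun c => D.map_algebraMap c
  inv_mem' := by
    intro a ha
    show D a⁻¹ = 0
    rw [Derivation.leibniz_inv, show D a = 0 from ha, smul_zero]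

/-- a derivation which kills the subfield `C` kills the elements algebraic over `C` -/
theorem der_alg {k F : Type} [Field k] [CharZero k] [Field F] [Algebra k F] (D : Derivation k F F)
    {z : F} (hz : IsAlgebraic (cons D) z) : D z = 0 := by
  have hc : CharZero (cons D) := charZero_of_injective_algebraMap (algebraMap k (cons D)).injective
  have hsm : ∀ (c : cons D) (a : F), D (c • a) = c • D a := by
    intro c a
    rw [Algebra.smul_def, Derivation.leibniz]
    have h1 : D (algebraMap (cons D) F c) = 0 := c.2
    rw [h1, smul_zero, add_zero, Algebra.smul_def]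
    rfl
  let L : F →ₗ[cons D] F := { toFun := D, map_add' := map_add D, map_smul' := hsm }
  let D' : Derivation (cons D) F F := Derivation.mk' L (fun a b => D.leibniz a b)
  have h1 : D' (Polynomial.aeval z (minpoly (cons D) z)) =
      Polynomial.aeval z (Polynomial.derivative (minpoly (cons D) z)) • D' z :=
    Derivation.map_aeval _ _ _
  rw [minpoly.aeval, map_zero] at h1
  have h2 : Polynomial.aeval z (Polynomial.derivative (minpoly (cons D) z)) ≠ 0 := by
    have h3 : (minpoly (cons D) z).Separable := (minpoly.irreducible hz.isIntegral).separable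
    intro h4
    obtain ⟨a, b, hab⟩ := h3
    have h5 := congrArg (Polynomial.aeval z) hab
    rw [map_add, map_mul, map_mul, minpoly.aeval, h4, mul_zero, mul_zero, add_zero, map_one] at h5
    exact zero_ne_one h5
  exact (smul_eq_zero.1 h1.symm).resolve_left h2

/-- two derivations along a homomorphism which agree on generators agree -/
theorem der_agree {k F G : Type} [Field k] [Field F] [Algebra k F] [Field G] [Algebra k G]
    (φ : F →ₐ[k] G) (D : Derivation k F F) (D' : Derivation k G G) (c : G) {S : Set F}
    (hS : IntermediateField.adjoin k S = ⊤) (h : ∀ z ∈ S, D' (φ z) = c * φ (D z)) (z : F) :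
    D' (φ z) = c * φ (D z) := by
  have hz : z ∈ IntermediateField.adjoin k S := by rw [hS]; exact IntermediateField.mem_top
  induction hz using IntermediateField.adjoin_induction with
  | mem x hx => exact h x hx
  | algebraMap x =>
    rw [AlgHom.commutes, Derivation.map_algebraMap, Derivation.map_algebraMap, map_zero, mul_zero]
  | add x y _ _ hx hy => rw [map_add, map_add, hx, hy, map_add, map_add, mul_add]
  | inv x _ hx =>
    rw [map_inv₀, Derivation.leibniz_inv, hx, Derivation.leibniz_inv]
    simp only [smul_eq_mul, map_mul, map_neg, map_pow, map_inv₀]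
    ring
  | mul x y _ _ hx hy =>
    rw [map_mul, Derivation.leibniz, hx, hy, Derivation.leibniz]
    simp only [smul_eq_mul, map_add, map_mul]
    ring

end Pool.Agent.LibAC6
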