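import Pool.Agent.LibAC6.Lg
import Pool.Agent.LibAC6.Der
import Pool.Agent.LibAC34.CG
import Pool.Agent.LibAC34.A5b
import Pool.Agent.LibAC34.A4

/-!
Homomorphisms of elliptic curves and the invariant differential: the endomorphisms of an elliptic
curve commute.
-/

open WeierstrassCurve Pool.Agent.LibBH2 Pool.Agent.LibIG50 Pool.Agent.LibCHd Pool.Agent.LibAC34
open scoped Classical TensorProduct

namespace Pool.Agent.LibAC6

variable {k : Type} [Field k]

section general
variable {E : WeierstrassCurve k} {F G : Type} [Field F] [Algebra k F] [Field G] [Algebra k G]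

theorem lg_map {D : Derivation k F F} {D' : Derivation k G G} (φ : F →ₐ[k] G) {c : G}
    (h : ∀ z, D' (φ z) = c * φ (D z)) {P : (E⁄F).toAffine.Point} {l : F} (hP : Lg D P l) :
    Lg D' (mp φ P) (c * φ l) := by
  match P, hP with
  | .zero, hP =>
    have e : mp φ (.zero : (E⁄F).toAffine.Point) = .zero := mp_zero φ
    have e2 : l = 0 := hP
    rw [e, e2, map_zero, mul_zero]
    rfl
  | .some x y hn, hP =>
    obtain ⟨h', e⟩ := mp_some φ x y hn
    rw [e]
    refine ⟨?_, ?_⟩
    · rw [h, hP.1]
      simp only [eta, map_mul, map_add, AlgHom.commutes, map_ofNat]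
      ring
    · rw [h, hP.2]
      simp only [theta, map_mul, map_add, map_sub, map_pow, AlgHom.commutes, map_ofNat]
      ring

theorem lg_smul {D : Derivation k F F} (c : F) {P : (E⁄F).toAffine.Point} {l : F}
    (hP : Lg D P l) : Lg (c • D) P (c * l) := by
  match P, hP with
  | .zero, hP =>
    have e2 : l = 0 := hP
    rw [e2, mul_zero]
    rfl
  | .some x y hn, hP =>
    refine ⟨?_, ?_⟩
    · rw [Derivation.smul_apply, hP.1, smul_eq_mul, mul_assoc]
    · rw [Derivation.smul_apply, hP.2, smul_eq_mul, mul_assoc]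

/-- on the function field of `E` over `M₀` there is a derivation over `M₀` with value `1` at the
generic point -/
theorem exists_der1 [CharZero k] {M₀ M : Type} [Field M₀] [Algebra k M₀] [Field M] [Algebra k M]
    {i : M₀ →ₐ[k] M} {ξ : (E⁄M).toAffine.Point} (h : Gen1 i E ξ) :
    ∃ D : Derivation k M M, (∀ m, D (i m) = 0) ∧ Lg D ξ 1 := by
  obtain ⟨x, y, hxy, rfl, hx, hgen⟩ := h
  let _ : Algebra M₀ M := i.toRingHom.toAlgebra
  have hst : IsScalarTower k M₀ M := IsScalarTower.of_algebraMap_eq fun c => (i.commutes c).symm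
  have hc : CharZero M₀ := charZero_of_injective_algebraMap (algebraMap k M₀).injective
  have htr : Transcendental M₀ x := by
    intro h1
    obtain ⟨G, hG, h2⟩ := h1
    exact hx G hG h2
  have halg : Algebra.IsAlgebraic (IntermediateField.adjoin M₀ {x}) M := by
    obtain ⟨L, hL⟩ : ∃ L, L = IntermediateField.adjoin M₀ {x} := ⟨_, rfl⟩
    rw [← hL]
    have hxL : x ∈ L := by rw [hL]; exact IntermediateField.mem_adjoin_simple_self M₀ x
    have hst2 : IsScalarTower k L M := IsScalarTower.of_algebraMap_eq fun c => by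
      rw [IsScalarTower.algebraMap_apply k M₀ L, IsScalarTower.algebraMap_apply k M₀ M]
      rfl
    have hcL : ∀ c : k, algebraMap k M c ∈ L := fun c => by
      rw [IsScalarTower.algebraMap_apply k M₀ M]
      exact L.algebraMap_mem _
    have hy : IsIntegral L y := by
      obtain ⟨b, hb⟩ : ∃ b : L, algebraMap L M b =
          algebraMap k M E.a₁ * x + algebraMap k M E.a₃ :=
        ⟨⟨algebraMap k M E.a₁ * x + algebraMap k M E.a₃,
          L.add_mem (L.mul_mem (hcL _) hxL) (hcL _)⟩, rfl⟩
      obtain ⟨c, hcc⟩ : ∃ c : L, algebraMap L M c = x ^ 3 + algebraMap k M E.a₂ * x ^ 2 +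
          algebraMap k M E.a₄ * x + algebraMap k M E.a₆ :=
        ⟨⟨x ^ 3 + algebraMap k M E.a₂ * x ^ 2 + algebraMap k M E.a₄ * x +
          algebraMap k M E.a₆, L.add_mem (L.add_mem (L.add_mem (pow_mem hxL 3)
          (L.mul_mem (hcL _) (pow_mem hxL 2))) (L.mul_mem (hcL _) hxL)) (hcL _)⟩, rfl⟩
      refine ⟨Polynomial.X ^ 2 + Polynomial.C b * Polynomial.X - Polynomial.C c, ?_, ?_⟩
      · have : (Polynomial.X ^ 2 + Polynomial.C b * Polynomial.X - Polynomial.C c :
            Polynomial L) = Polynomial.X ^ 2 + (Polynomial.C b * Polynomial.X -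
              Polynomial.C c) := by ring
        rw [this]
        apply Polynomial.monic_X_pow_add
        refine lt_of_le_of_lt (Polynomial.degree_sub_le _ _) (max_lt ?_ ?_)
        · exact lt_of_le_of_lt (Polynomial.degree_C_mul_X_le _) (by norm_num)
        · exact lt_of_le_of_lt Polynomial.degree_C_le (by norm_num)
      · simp only [Polynomial.eval₂_sub, Polynomial.eval₂_add, Polynomial.eval₂_mul,
          Polynomial.eval₂_pow, Polynomial.eval₂_X, Polynomial.eval₂_C]
        have e := (eq_iff x y).1 hxy.1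
        rw [hb, hcc]
        linear_combination e
    have htop : (algebraicClosure L M).restrictScalars k = ⊤ := by
      rw [eq_top_iff, ← hgen, IntermediateField.adjoin_le_iff]
      rintro z (⟨m, rfl⟩ | hz)
      · exact (algebraicClosure L M).algebraMap_mem (⟨i m, L.algebraMap_mem m⟩ : L)
      · rcases hz with rfl | hz
        · exact (algebraicClosure L M).algebraMap_mem (⟨z, hxL⟩ : L)
        · rw [Set.mem_singleton_iff] at hz
          subst hz
          exact mem_algebraicClosure_iff.2 hy.isAlgebraic
    constructor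
    intro z
    have hz : z ∈ (algebraicClosure L M).restrictScalars k := by
      rw [htop]
      exact IntermediateField.mem_top
    exact mem_algebraicClosure_iff.1 hz
  obtain ⟨D, hD⟩ := exists_der x htr halg
  let D1 : Derivation k M M := D.restrictScalars k
  have hD1 : D1 x = 1 := hD
  have hi : ∀ m, D1 (i m) = 0 := fun m => D.map_algebraMap m
  obtain ⟨l, hl⟩ := lg_exists D1 (.some x y hxy : (E⁄M).toAffine.Point)
  have hl0 : l ≠ 0 := by
    rintro rfl
    have h1 := hl.1
    rw [zero_mul, hD1] at h1
    exact one_ne_zero h1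
  refine ⟨l⁻¹ • D1, fun m => ?_, ?_⟩
  · rw [Derivation.smul_apply, hi, smul_zero]
  · have h1 := lg_smul l⁻¹ hl
    rwa [inv_mul_cancel₀ hl0] at h1

end general

end Pool.Agent.LibAC6
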