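import Pool.Agent.LibAC6.Dif

/-!
The value of the invariant differential on a homomorphism is a constant.
-/

open WeierstrassCurve Pool.Agent.LibBH2 Pool.Agent.LibIG50 Pool.Agent.LibCHd Pool.Agent.LibAC34
open scoped Classical TensorProduct

namespace Pool.Agent.LibAC6

variable {k : Type} [Field k]

section cps
variable {H M K : Type} [Field H] [Algebra k H] [Field M] [Algebra k M] [Field K] [Algebra k K]

theorem phi_swap (i : H →ₐ[k] K) (j : M →ₐ[k] K) (z : M ⊗[k] H) :
    phi j i z = phi i j (Algebra.TensorProduct.comm k M H z) := by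
  have h : phi j i = (phi i j).comp (Algebra.TensorProduct.comm k M H).toAlgHom := by
    apply Algebra.TensorProduct.ext'
    intro a b
    rw [phi_tmul]
    show _ = phi i j (Algebra.TensorProduct.comm k M H (a ⊗ₜ b))
    rw [Algebra.TensorProduct.comm_tmul, phi_tmul, mul_comm]
  rw [h]
  rfl

theorem cps_symm {i : H →ₐ[k] K} {j : M →ₐ[k] K} (h : IsCps i j) : IsCps j i where
  inj a b hab := by
    rw [phi_swap i j a, phi_swap i j b] at hab
    exact (Algebra.TensorProduct.comm k M H).injective (h.inj hab)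
  gen z := by
    obtain ⟨a, b, hb, hab⟩ := h.gen z
    refine ⟨(Algebra.TensorProduct.comm k M H).symm a, (Algebra.TensorProduct.comm k M H).symm b,
      ?_, ?_⟩
    · rw [phi_swap i j, AlgEquiv.apply_symm_apply]
      exact hb
    · rw [phi_swap i j ((Algebra.TensorProduct.comm k M H).symm b),
        phi_swap i j ((Algebra.TensorProduct.comm k M H).symm a), AlgEquiv.apply_symm_apply,
        AlgEquiv.apply_symm_apply]
      exact hab

/-- an element of both factors of a compositum is a constant -/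
theorem cps_const {i j : H →ₐ[k] K} (h : IsCps i j) {a : H} (ha : i a = j a) :
    ∃ c : k, algebraMap k H c = a := by
  by_contra hne
  have hnot : a ∉ Submodule.span k {(1 : H)} := by
    intro h1
    obtain ⟨c, hc⟩ := Submodule.mem_span_singleton.1 h1
    exact hne ⟨c, by rw [← hc, Algebra.smul_def, mul_one]⟩
  obtain ⟨f, hf, hf'⟩ := Submodule.exists_dual_map_eq_bot_of_notMem hnot inferInstance
  have h1 : (a ⊗ₜ[k] (1 : H)) = (1 : H) ⊗ₜ[k] a := by
    apply h.inj
    rw [phi_tmul, phi_tmul, map_one, map_one, one_mul, mul_one, ha]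
  have h2 := congrArg (TensorProduct.lid k H ∘ (LinearMap.rTensor H f)) h1
  simp only [Function.comp_apply, LinearMap.rTensor_tmul, TensorProduct.lid_tmul] at h2
  have h3 : f 1 = 0 := by
    have h4 : f 1 ∈ Submodule.map f (Submodule.span k {(1 : H)}) :=
      ⟨1, Submodule.mem_span_singleton_self 1, rfl⟩
    rw [hf'] at h4
    exact h4
  rw [h3, zero_smul] at h2
  exact hf ((smul_eq_zero.1 h2).resolve_right one_ne_zero)

end cps

variable [CharZero k] {U V W : WeierstrassCurve k}

theorem gen1_genPt [V.IsElliptic] : Gen1 (Algebra.ofId k (KE V)) V (genPt V) := by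
  have ht : Transcendental k (DE V).s := by
    intro h
    exact RatFunc.transcendental_X
      ((isAlgebraic_algHom_iff (DE V).ι (DE V).ι.toRingHom.injective).1 h)
  refine ⟨_, _, _, rfl, fun G hG h => ht ⟨G, hG, h⟩, ?_⟩
  rw [eq_top_iff, ← adjoin_genPt (E := V)]
  have h1 := adjoin_coo_some (k := k) (E := V) (M := KE V) ∅ (DE V).s
    ((DE V).w - algebraMap k (KE V) (1 / 2) *
      (algebraMap k (KE V) V.a₁ * (DE V).s + algebraMap k (KE V) V.a₃))
    ((Affine.equation_iff_nonsingular_of_Δ_ne_zero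
      (W := V⁄(KE V)) (baseChange_Δ_ne (KE V) V)).1 (gen_equation V))
  rw [Set.empty_union, Set.empty_union] at h1
  refine h1.le.trans ?_
  exact IntermediateField.adjoin.mono _ _ _ Set.subset_union_right

/-- the invariant derivation of the function field of `V` -/
noncomputable def DV (V : WeierstrassCurve k) [V.IsElliptic] : Derivation k (KE V) (KE V) :=
  (exists_der1 (gen1_genPt (V := V))).choose

theorem lg_DV [V.IsElliptic] : Lg (DV V) (genPt V) 1 :=
  (exists_der1 (gen1_genPt (V := V))).choose_spec.2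

section
variable [V.IsElliptic] {G : Type} [Field G] [Algebra k G]

theorem der_of_lg (φ : KE V →ₐ[k] G) (D' : Derivation k G G) {c : G}
    (h : Lg D' (mp φ (genPt V)) c) (z : KE V) : D' (φ z) = c * φ (DV V z) := by
  obtain ⟨x, y, hxy, e, _, hgen⟩ := gen1_genPt (V := V)
  have h1 := lg_DV (V := V)
  rw [e] at h h1
  obtain ⟨h', e'⟩ := mp_some φ x y hxy
  rw [e'] at h
  refine der_agree φ (DV V) D' c hgen ?_ z
  rintro z (⟨m, rfl⟩ | hz)
  · have h2 : Algebra.ofId k (KE V) m = algebraMap k (KE V) m := rfl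
    rw [h2, AlgHom.commutes, Derivation.map_algebraMap, Derivation.map_algebraMap, map_zero,
      mul_zero]
  · rcases hz with rfl | hz
    · rw [h.1, h1.1, one_mul]
      simp only [eta, map_mul, map_add, AlgHom.commutes, map_ofNat]
    · rw [Set.mem_singleton_iff] at hz
      subst hz
      rw [h.2, h1.2, one_mul]
      simp only [theta, map_mul, map_add, map_sub, map_pow, AlgHom.commutes, map_ofNat]

theorem lg_hm (f : Hm V W) {a : KE V} (ha : Lg (DV V) (f.f (KE V) (genPt V)) a)
    (φ : KE V →ₐ[k] G) (D' : Derivation k G G) {c : G} (h : Lg D' (mp φ (genPt V)) c) :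
    Lg D' (f.f G (mp φ (genPt V))) (c * φ a) := by
  rw [f.nat]
  exact lg_map φ (der_of_lg φ D' h) ha

theorem key_eq (f : Hm V W) {a : KE V} (ha : Lg (DV V) (f.f (KE V) (genPt V)) a)
    {i j : KE V →ₐ[k] G} (hc : IsCps i j) {φ : KE V →ₐ[k] G}
    (hφ : mp φ (genPt V) = mp i (genPt V) + mp j (genPt V)) : φ a = i a := by
  obtain ⟨D1, hj, hP⟩ := exists_der1 (gen1_of_cps hc)
  have hQ : Lg D1 (mp j (genPt V)) 0 := by
    have h1 := lg_map (D := DV V) (D' := D1) j (c := 0) (fun z => by rw [hj, zero_mul])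
      (lg_DV (V := V))
    rwa [zero_mul] at h1
  have hPQ : Lg D1 (mp φ (genPt V)) 1 := by
    have h1 := lg_add hP hQ
    rwa [add_zero, ← hφ] at h1
  have h1 := lg_hm f ha φ D1 hPQ
  have h2 := lg_hm f ha i D1 hP
  have h3 := lg_hm f ha j D1 hQ
  have h4 := lg_add h2 h3
  rw [← map_add, ← hφ] at h4
  have h5 := lg_unique h1 h4
  rw [one_mul, one_mul, zero_mul, add_zero] at h5
  exact h5

theorem exists_phiadd [IsAlgClosed k] {i j : KE V →ₐ[k] G} (hc : IsCps i j) :
    ∃ φ : KE V →ₐ[k] G, mp φ (genPt V) = mp i (genPt V) + mp j (genPt V) := by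
  have hK : FunF k (1 + 1) G := IsCps.funF i j hc funF_KE funF_KE
  have h1 := gen1_add (gen1_of_cps hc) (d := 1) hK.trdeg (genPt V)
  obtain ⟨φ, hφ, _⟩ := gen1_cps j _ h1
  exact ⟨φ, hφ⟩

end

variable [IsAlgClosed k]

/-- the value of the invariant differential of `W` on the homomorphism `f` is a constant -/
theorem exists_dif [V.IsElliptic] (f : Hm V W) :
    ∃ c : k, Lg (DV V) (f.f (KE V) (genPt V)) (algebraMap k (KE V) c) := by
  obtain ⟨a, ha⟩ := lg_exists (DV V) (f.f (KE V) (genPt V))
  obtain ⟨K, _, _, i, j, hc⟩ := exists_cps_KE V (KE V)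
  obtain ⟨φ, hφ⟩ := exists_phiadd hc
  have h1 : φ a = i a := key_eq f ha hc hφ
  have h2 : φ a = j a := key_eq f ha (cps_symm hc) (by rw [hφ, add_comm])
  obtain ⟨c, rfl⟩ := cps_const hc (h1.symm.trans h2)
  exact ⟨c, ha⟩

/-- the factor by which the homomorphism `f` multiplies the invariant differential -/
noncomputable def dif [V.IsElliptic] (f : Hm V W) : k := (exists_dif f).choose

theorem dif_spec [V.IsElliptic] (f : Hm V W) :
    Lg (DV V) (f.f (KE V) (genPt V)) (algebraMap k (KE V) (dif f)) := (exists_dif f).choose_spec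

theorem dif_add [V.IsElliptic] (f g h : Hm V W)
    (hh : ∀ (F : Type) [Field F] [Algebra k F] (P : (V⁄F).toAffine.Point),
      h.f F P = f.f F P + g.f F P) : dif h = dif f + dif g := by
  have h1 := dif_spec h
  rw [hh] at h1
  have h2 := lg_unique h1 (lg_add (dif_spec f) (dif_spec g))
  rw [← map_add] at h2
  exact (algebraMap k (KE V)).injective h2

end Pool.Agent.LibAC6
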