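import Pool.Agent.LibAC6.Dif2
import Pool.Agent.LibAC36.Ker
import Pool.Agent.LibCV66.P4

/-!
The endomorphisms of an elliptic curve commute.
-/

open WeierstrassCurve Pool.Agent.LibBH2 Pool.Agent.LibIG50 Pool.Agent.LibCHd Pool.Agent.LibAC34
open Pool.Agent.LibAC36
open scoped Classical TensorProduct

namespace Pool.Agent.LibAC6

variable {k : Type} [Field k] [CharZero k] [IsAlgClosed k] {E U V W : WeierstrassCurve k}

theorem dif_comp [U.IsElliptic] [V.IsElliptic] (f : Hm U V) (g : Hm V W) :
    dif (g.comp f) = dif g * dif f := by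
  have h0 : (g.comp f).f (KE U) (genPt U) = g.f (KE U) (f.f (KE U) (genPt U)) := rfl
  have h1 := dif_spec (g.comp f)
  rw [h0] at h1
  have h2 := dif_spec f
  rcases eta_cases f with h3 | h3
  · rw [h3, map_zero] at h1
    rw [h3] at h2
    have h4 : algebraMap k (KE U) (dif (g.comp f)) = 0 := h1
    have h5 : algebraMap k (KE U) (dif f) = 0 := h2
    rw [map_eq_zero] at h4 h5
    rw [h4, h5, mul_zero]
  · obtain ⟨φ, hφ⟩ := h3.lift
    rw [← hφ] at h1 h2
    have h4 := lg_hm g (dif_spec g) φ (DV U) h2
    have h5 := lg_unique h1 h4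
    rw [AlgHom.commutes, ← map_mul] at h5
    rw [(algebraMap k (KE U)).injective h5, mul_comm]

theorem dif_eq_zero_iff [V.IsElliptic] (f : Hm V W) :
    dif f = 0 ↔ ∀ (F : Type) [Field F] [Algebra k F] (P : (V⁄F).toAffine.Point), f.f F P = 0 := by
  constructor
  · intro h0
    have h1 := dif_spec f
    rw [h0, map_zero] at h1
    rcases eta_cases f with h2 | ⟨x, y, hxy, h2, hx⟩
    · exact fun F _ _ P => zero_of_eta f h2 F P
    · exfalso
      rw [h2] at h1
      have h3 : DV V x = 0 := by
        have := h1.1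
        rwa [zero_mul] at this
      have h4 : (1 : Cardinal) ≤ Algebra.trdeg k (cons (DV V)) := by
        rw [Cardinal.one_le_iff_ne_zero]
        intro h5
        have h6 : Algebra.IsAlgebraic k (cons (DV V)) := trdeg_eq_zero_iff.1 h5
        have h7 := h6.isAlgebraic (⟨x, h3⟩ : cons (DV V))
        exact hx (h7.algHom (cons (DV V)).val)
      have h5 : FiniteDimensional (cons (DV V)) (KE V) :=
        LibCV66.finite_of_trdeg (D := 1) funF_KE _ (by simpa using h4)
      have h6 : ∀ z : KE V, DV V z = 0 := fun z =>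
        der_alg (DV V) (Algebra.IsAlgebraic.isAlgebraic z)
      have h7 := lg_DV (V := V)
      obtain ⟨a, b, hab, e, _⟩ := gen1_genPt (V := V)
      rw [e] at h7
      have h8 := h7.1
      have h9 := h7.2
      rw [h6, one_mul] at h8 h9
      rcases ns_or hab with h | h
      · exact h h8.symm
      · exact h h9.symm
  · intro h
    have h1 := dif_spec f
    rw [h] at h1
    have h2 : algebraMap k (KE V) (dif f) = 0 := h1
    rwa [map_eq_zero] at h2

/-- the difference of two homomorphisms -/
noncomputable def subH [W.IsElliptic] (f g : Hm V W) : Hm V W where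
  f F _ _ := f.f F - g.f F
  nat F G _ _ _ _ σ P := by
    show f.f G (mp σ P) - g.f G (mp σ P) = mp σ (f.f F P - g.f F P)
    rw [f.nat, g.nat, map_sub]
  sp K _ _ v P p h := by
    have h1 := SpR_add (f.sp K v P p h) (spR_zsmul (-1) (g.sp K v P p h))
    rw [neg_one_zsmul, neg_one_zsmul, ← sub_eq_add_neg, ← sub_eq_add_neg] at h1
    exact h1

theorem subH_apply [W.IsElliptic] (f g : Hm V W) (F : Type) [Field F] [Algebra k F]
    (P : (V⁄F).toAffine.Point) : (subH f g).f F P = f.f F P - g.f F P := rfl

theorem dif_sub [V.IsElliptic] [W.IsElliptic] (f g : Hm V W) :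
    dif (subH f g) = dif f - dif g := by
  have h := dif_add (subH f g) g f (fun F _ _ P => by rw [subH_apply, sub_add_cancel])
  rw [h, add_sub_cancel_right]

/-- homomorphisms with the same value of the invariant differential are equal -/
theorem eq_of_dif [V.IsElliptic] [W.IsElliptic] {f g : Hm V W} (h : dif f = dif g) (F : Type)
    [Field F] [Algebra k F] (P : (V⁄F).toAffine.Point) : f.f F P = g.f F P := by
  have h1 : dif (subH f g) = 0 := by rw [dif_sub, h, sub_self]
  have h2 := (dif_eq_zero_iff _).1 h1 F P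
  rwa [subH_apply, sub_eq_zero] at h2

/-- **The endomorphisms of an elliptic curve commute.** -/
theorem comp_comm [E.IsElliptic] (f g : Hm E E) (F : Type) [Field F] [Algebra k F]
    (P : (E⁄F).toAffine.Point) : f.f F (g.f F P) = g.f F (f.f F P) := by
  have h : dif (f.comp g) = dif (g.comp f) := by rw [dif_comp, dif_comp, mul_comm]
  exact eq_of_dif h F P

end Pool.Agent.LibAC6
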