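import Pool.Agent.LibCHd.Cps

/-!
The invariant differential of an elliptic curve: the logarithmic derivative of a point is additive.
-/

open WeierstrassCurve Pool.Agent.LibBH2 Pool.Agent.LibIG50 Pool.Agent.LibCHd
open scoped Classical

namespace Pool.Agent.LibAC6

variable {k : Type} [Field k] {E : WeierstrassCurve k} {F : Type} [Field F] [Algebra k F]

/-- `∂ / ∂ y` of the equation -/
def eta (E : WeierstrassCurve k) (x y : F) : F :=
  2 * y + algebraMap k F E.a₁ * x + algebraMap k F E.a₃

/-- `- ∂ / ∂ x` of the equation -/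
def theta (E : WeierstrassCurve k) (x y : F) : F :=
  3 * x ^ 2 + 2 * algebraMap k F E.a₂ * x + algebraMap k F E.a₄ - algebraMap k F E.a₁ * y

/-- `l` is the logarithmic derivative `D x / (2 y + a₁ x + a₃)` of the point `(x, y)` -/
def Lg (D : Derivation k F F) : (E⁄F).toAffine.Point → F → Prop
  | .zero, l => l = 0
  | .some x y _, l => D x = l * eta E x y ∧ D y = l * theta E x y

theorem eq_iff (x y : F) : (E⁄F).toAffine.Equation x y ↔
    y ^ 2 + algebraMap k F E.a₁ * x * y + algebraMap k F E.a₃ * y =
      x ^ 3 + algebraMap k F E.a₂ * x ^ 2 + algebraMap k F E.a₄ * x + algebraMap k F E.a₆ :=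
  WeierstrassCurve.Affine.equation_iff _ _

theorem ns_or {x y : F} (h : (E⁄F).toAffine.Nonsingular x y) : eta E x y ≠ 0 ∨ theta E x y ≠ 0 := by
  rw [WeierstrassCurve.Affine.nonsingular_iff'] at h
  rcases h.2 with h1 | h1
  · right
    intro h2
    apply h1
    have h3 : theta E x y = -((E⁄F).a₁ * y - (3 * x ^ 2 + 2 * (E⁄F).a₂ * x + (E⁄F).a₄)) := by
      simp only [theta, WeierstrassCurve.map_a₁, WeierstrassCurve.map_a₂, WeierstrassCurve.map_a₄,
        WeierstrassCurve.baseChange]
      ring
    rw [h3, neg_eq_zero] at h2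
    exact h2
  · left
    intro h2
    apply h1
    have h3 : eta E x y = 2 * y + (E⁄F).a₁ * x + (E⁄F).a₃ := by
      simp only [eta, WeierstrassCurve.map_a₁, WeierstrassCurve.map_a₃,
        WeierstrassCurve.baseChange]
    rw [h3] at h2
    exact h2

variable (D : Derivation k F F)

theorem der_eq {x y : F} (h : (E⁄F).toAffine.Equation x y) :
    eta E x y * D y = theta E x y * D x := by
  rw [eq_iff] at h
  have h1 := congrArg D h
  simp only [map_add, Derivation.leibniz, Derivation.leibniz_pow, Derivation.map_algebraMap,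
    smul_eq_mul, nsmul_eq_mul, Nat.cast_ofNat, mul_zero, add_zero] at h1
  unfold eta theta
  norm_num at h1
  linear_combination h1

theorem lg_exists (P : (E⁄F).toAffine.Point) : ∃ l, Lg D P l := by
  match P with
  | .zero => exact ⟨0, rfl⟩
  | .some x y h =>
    have h1 := der_eq D h.1
    by_cases h2 : eta E x y = 0
    · have h3 : theta E x y ≠ 0 := (ns_or h).resolve_left (by simpa using h2)
      refine ⟨D y / theta E x y, ?_, ?_⟩
      · rw [h2, zero_mul, eq_comm, mul_eq_zero] at h1
        rw [h2, mul_zero]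
        exact h1.resolve_left h3
      · field_simp
    · refine ⟨D x / eta E x y, ?_, ?_⟩
      · field_simp
      · field_simp
        linear_combination h1

variable {D}

theorem lg_unique {P : (E⁄F).toAffine.Point} {l m : F} (h : Lg D P l) (h' : Lg D P m) : l = m := by
  match P, h, h' with
  | .zero, h, h' => exact h.trans h'.symm
  | .some x y hn, h, h' =>
    rcases ns_or hn with h1 | h1
    · exact mul_right_cancel₀ h1 (h.1.symm.trans h'.1)
    · exact mul_right_cancel₀ h1 (h.2.symm.trans h'.2)

theorem lg_neg {P : (E⁄F).toAffine.Point} {l : F} (h : Lg D P l) : Lg D (-P) (-l) := by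
  match P, h with
  | .zero, h =>
    show -l = 0
    rw [neg_eq_zero]
    exact h
  | .some x y hn, h =>
    have e : -(WeierstrassCurve.Affine.Point.some x y hn : (E⁄F).toAffine.Point) =
      .some x ((E⁄F).toAffine.negY x y)
        ((WeierstrassCurve.Affine.nonsingular_neg x y).2 hn) := rfl
    rw [e]
    have e2 : (E⁄F).toAffine.negY x y = -y - algebraMap k F E.a₁ * x - algebraMap k F E.a₃ := rfl
    obtain ⟨h1, h2⟩ := h
    refine ⟨?_, ?_⟩
    · rw [h1, e2]
      unfold eta
      ring
    · rw [e2]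
      simp only [map_sub, map_neg, Derivation.leibniz, Derivation.map_algebraMap, smul_eq_mul,
        mul_zero, add_zero, sub_zero, h1, h2]
      unfold eta theta
      ring

/-- the algebraic core; `hal`: the cubic on the line has the three roots `x₁`, `x₂`, `x₃` -/
theorem lg_core {x₁ x₂ y₁ y₂ lam l m : F} (hy : y₂ = lam * (x₂ - x₁) + y₁)
    {x₃ y₃ : F} (hx₃ : x₃ = lam ^ 2 + algebraMap k F E.a₁ * lam - algebraMap k F E.a₂ - x₁ - x₂)
    (hy₃ : y₃ = -(lam * (x₃ - x₁) + y₁) - algebraMap k F E.a₁ * x₃ - algebraMap k F E.a₃)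
    (hal : algebraMap k F E.a₄ - 2 * lam * (y₁ - lam * x₁) -
      algebraMap k F E.a₁ * (y₁ - lam * x₁) - algebraMap k F E.a₃ * lam =
      x₁ * x₂ + (x₁ + x₂) * x₃)
    (h1 : D x₁ = l * eta E x₁ y₁) (h2 : D y₁ = l * theta E x₁ y₁)
    (h3 : D x₂ = m * eta E x₂ y₂)
    (hlam : D lam = l * (x₁ - x₃) + m * (x₂ - x₃)) :
    D x₃ = (l + m) * eta E x₃ y₃ ∧ D y₃ = (l + m) * theta E x₃ y₃ := by
  have h5 : D x₃ = (l + m) * eta E x₃ y₃ := by
    have h6 := congrArg D hx₃
    simp only [map_sub, map_add, Derivation.leibniz, Derivation.leibniz_pow,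
      Derivation.map_algebraMap, smul_eq_mul, nsmul_eq_mul, Nat.cast_ofNat, mul_zero, add_zero,
      sub_zero, h1, h3, hlam] at h6
    norm_num at h6
    rw [h6, hy₃, hy]
    unfold eta
    ring
  refine ⟨h5, ?_⟩
  have h6 := congrArg D hy₃
  simp only [map_sub, map_add, map_neg, Derivation.leibniz, Derivation.leibniz_pow,
    Derivation.map_algebraMap, smul_eq_mul, nsmul_eq_mul, Nat.cast_ofNat, mul_zero, add_zero,
    sub_zero, h1, h2, h5, hlam] at h6
  rw [h6, hy₃]
  unfold eta theta
  rw [eq_comm, ← sub_eq_zero]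
  have e2 : algebraMap k F E.a₂ = lam ^ 2 + algebraMap k F E.a₁ * lam - x₁ - x₂ - x₃ := by
    linear_combination hx₃
  have e4 : algebraMap k F E.a₄ = 2 * lam * (y₁ - lam * x₁) +
      algebraMap k F E.a₁ * (y₁ - lam * x₁) + algebraMap k F E.a₃ * lam +
      (x₁ * x₂ + (x₁ + x₂) * x₃) := by
    linear_combination hal
  rw [e2, e4]
  ring

/-- the linear polynomial `al * X + be` vanishes -/
theorem lg_al {x₁ x₂ y₁ lam x₃ : F}
    (hx₃ : x₃ = lam ^ 2 + algebraMap k F E.a₁ * lam - algebraMap k F E.a₂ - x₁ - x₂)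
    (h1 : (E⁄F).toAffine.Equation x₁ y₁)
    (h2 : (E⁄F).toAffine.Equation x₂ (lam * (x₂ - x₁) + y₁)) :
    (algebraMap k F E.a₄ - 2 * lam * (y₁ - lam * x₁) -
      algebraMap k F E.a₁ * (y₁ - lam * x₁) - algebraMap k F E.a₃ * lam -
      (x₁ * x₂ + (x₁ + x₂) * x₃)) * (x₁ - x₂) = 0 := by
  rw [eq_iff] at h1 h2
  rw [hx₃]
  linear_combination h2 - h1

theorem lg_add {P Q : (E⁄F).toAffine.Point} {l m : F} (hP : Lg D P l) (hQ : Lg D Q m) :
    Lg D (P + Q) (l + m) := by
  match P, Q, hP, hQ with
  | .zero, Q, hP, hQ =>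
    have e : (WeierstrassCurve.Affine.Point.zero : (E⁄F).toAffine.Point) + Q = Q := zero_add Q
    have e2 : l = 0 := hP
    rw [e, e2, zero_add]
    exact hQ
  | .some x y h, .zero, hP, hQ =>
    have e : (WeierstrassCurve.Affine.Point.some x y h : (E⁄F).toAffine.Point) +
      WeierstrassCurve.Affine.Point.zero = .some x y h := add_zero _
    have e2 : m = 0 := hQ
    rw [e, e2, add_zero]
    exact hP
  | .some x₁ y₁ n₁, .some x₂ y₂ n₂, hP, hQ =>
    by_cases hxy : x₁ = x₂ ∧ y₁ = (E⁄F).toAffine.negY x₂ y₂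
    · have e : (WeierstrassCurve.Affine.Point.some x₂ y₂ n₂ : (E⁄F).toAffine.Point) =
          -(WeierstrassCurve.Affine.Point.some x₁ y₁ n₁) := by
        obtain ⟨e1, e2⟩ := hxy
        rw [WeierstrassCurve.Affine.Point.neg_some]
        have e3 : y₂ = (E⁄F).toAffine.negY x₁ y₁ := by
          rw [e2, e1, WeierstrassCurve.Affine.negY_negY]
        simp only [e1, e3]
      have e2 : m = -l := lg_unique (D := D) hQ (by rw [e]; exact lg_neg hP)
      rw [e, e2, add_neg_cancel, add_neg_cancel]
      rfl
    · rw [WeierstrassCurve.Affine.Point.add_some hxy]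
      set lam := (E⁄F).toAffine.slope x₁ x₂ y₁ y₂ with hlam
      have hX : (E⁄F).toAffine.addX x₁ x₂ lam = lam ^ 2 + algebraMap k F E.a₁ * lam -
        algebraMap k F E.a₂ - x₁ - x₂ := rfl
      have hY : (E⁄F).toAffine.addY x₁ x₂ y₁ lam =
          -(lam * ((E⁄F).toAffine.addX x₁ x₂ lam - x₁) + y₁) -
            algebraMap k F E.a₁ * (E⁄F).toAffine.addX x₁ x₂ lam - algebraMap k F E.a₃ := rfl
      show D _ = (l + m) * eta E _ _ ∧ D _ = (l + m) * theta E _ _
      by_cases hx : x₁ = x₂
      · have hy : y₁ ≠ (E⁄F).toAffine.negY x₂ y₂ := fun h => hxy ⟨hx, h⟩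
        have hyy : y₁ = y₂ := WeierstrassCurve.Affine.Y_eq_of_Y_ne n₁.1 n₂.1 hx hy
        subst hx
        subst hyy
        have hne : eta E x₁ y₁ ≠ 0 := by
          intro h
          apply hy
          have e2 : (E⁄F).toAffine.negY x₁ y₁ =
            -y₁ - algebraMap k F E.a₁ * x₁ - algebraMap k F E.a₃ := rfl
          rw [e2]
          unfold eta at h
          linear_combination h
        have hsl : lam * eta E x₁ y₁ = theta E x₁ y₁ := by
          rw [hlam, WeierstrassCurve.Affine.slope_of_Y_ne rfl hy]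
          have e2 : y₁ - (E⁄F).toAffine.negY x₁ y₁ = eta E x₁ y₁ := by
            have e2 : (E⁄F).toAffine.negY x₁ y₁ =
              -y₁ - algebraMap k F E.a₁ * x₁ - algebraMap k F E.a₃ := rfl
            rw [e2]
            unfold eta
            ring
          rw [e2, div_mul_cancel₀ _ hne]
          rfl
        have hlm : l = m := lg_unique (D := D) hP hQ
        subst hlm
        refine lg_core (by ring) hX hY ?_ hP.1 hP.2 hP.1 ?_
        · rw [hX]
          unfold eta theta at hsl
          linear_combination -hsl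
        · have h6 := congrArg D hsl
          unfold eta theta at h6
          simp only [map_sub, map_add, map_neg, Derivation.leibniz, Derivation.leibniz_pow,
            Derivation.map_algebraMap, smul_eq_mul, nsmul_eq_mul, Nat.cast_ofNat, mul_zero,
            add_zero, zero_add, sub_zero, hP.1, hP.2] at h6
          have h7 : D (2 : F) = 0 := by
            have := D.map_natCast 2
            simpa using this
          have h8 : D (3 : F) = 0 := by
            have := D.map_natCast 3
            simpa using this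
          rw [h7, h8] at h6
          norm_num at h6
          rw [hX]
          apply mul_left_cancel₀ hne
          simp only [eta, theta] at h6 hsl ⊢
          linear_combination h6 + (algebraMap k F E.a₁ * l + 2 * lam * l) * hsl
      · have hne : x₁ - x₂ ≠ 0 := sub_ne_zero.2 hx
        have hsl : lam * (x₁ - x₂) = y₁ - y₂ := by
          rw [hlam, WeierstrassCurve.Affine.slope_of_X_ne hx, div_mul_cancel₀ _ hne]
        have hy : y₂ = lam * (x₂ - x₁) + y₁ := by linear_combination hsl
        have hal := (mul_eq_zero.1 (lg_al hX n₁.1 (by rw [← hy]; exact n₂.1))).resolve_right hne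
        rw [sub_eq_zero] at hal
        refine lg_core hy hX hY hal hP.1 hP.2 hQ.1 ?_
        have h6 := congrArg D hsl
        simp only [map_sub, Derivation.leibniz, smul_eq_mul, hP.1, hP.2, hQ.1, hQ.2] at h6
        apply mul_left_cancel₀ hne
        rw [hX] at hal ⊢
        simp only [eta, theta] at h6
        linear_combination h6 + (l - m) * hal + m * (algebraMap k F E.a₁ + 2 * lam) * hy

end Pool.Agent.LibAC6
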