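import Pool.Agent.LibCV6.P2
import Pool.Agent.LibCHd.A
import Pool.Agent.LibCHd.R6
import Pool.Agent.LibAC34.Stmt3

/-!
Zero-cycles on a product of two elliptic curves: the two definitions of the Chow group.
-/

open WeierstrassCurve Pool.Agent.LibBH2 Pool.Agent.LibIG50 Pool.Agent.LibCHd Pool.Agent.LibGG
open Pool.Agent.LibCV6
open scoped Classical

namespace Pool.Agent.LibAC6

variable {k : Type} [Field k]

/-- the projective space of dimension zero, a point -/
def pt0 (k : Type) [Field k] : Prj k := ⟨0, ∅, fun _ h => absurd h (Set.notMem_empty _)⟩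

instance : Subsingleton (Fin ((pt0 k).N + 1)) := inferInstanceAs (Subsingleton (Fin 1))

/-- the point `a` of `W 1 × ... × W r`, as a point of the product with `pt0` -/
noncomputable def ptc {r : ℕ} {W : Fin r → WeierstrassCurve k} (a : Pts W) : Pnt W (pt0 k) k where
  z i := constPt k (a i)
  y _ := 1
  y_ne h := one_ne_zero (congrFun h 0)
  mem _ hf := absurd hf (Set.notMem_empty _)

theorem exists_ratFunc {K : Type} [Field K] [Algebra k K] (h : FunF k 1 K) :
    ∃ ι : RatFunc k →ₐ[k] K, ι.toRingHom.Finite := by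
  obtain ⟨t, ht, hf⟩ := h
  rw [algebraicIndependent_unique_type_iff] at ht
  have h0 : Function.Injective (Polynomial.aeval (R := k) (t default)) :=
    transcendental_iff_injective.1 ht
  let ι : RatFunc k →ₐ[k] K := RatFunc.liftAlgHom (Polynomial.aeval (R := k) (t default))
    (nonZeroDivisors_le_comap_nonZeroDivisors_of_injective _ h0)
  have hX : ι RatFunc.X = t default := by
    have h1 := RatFunc.liftAlgHom_apply_div (Polynomial.aeval (R := k) (t default))
      (nonZeroDivisors_le_comap_nonZeroDivisors_of_injective _ h0) Polynomial.X 1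
    rw [RatFunc.algebraMap_X, Polynomial.aeval_X, map_one, map_one, div_one, div_one] at h1
    exact h1
  refine ⟨ι, ?_⟩
  have h1 : IntermediateField.adjoin k (Set.range t) = ι.fieldRange := by
    have h2 : Set.range t = {t default} := by
      rw [← Set.range_const (ι := Fin 1) (c := t default)]
      congr 1
      funext i
      rw [Subsingleton.elim i default]
    rw [h2, ← hX, ← Set.image_singleton, ← IntermediateField.adjoin_map,
      RatFunc.adjoin_X, ← AlgHom.fieldRange_eq_map]
  rw [h1] at hf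
  let _ : Algebra (RatFunc k) K := ι.toRingHom.toAlgebra
  show Module.Finite (RatFunc k) K
  exact Module.Finite.of_equiv_equiv ι.equivFieldRange.symm.toRingEquiv (RingEquiv.refl K)
    (by
      ext x
      obtain ⟨y, rfl⟩ := ι.equivFieldRange.surjective x
      show ι (ι.equivFieldRange.symm (ι.equivFieldRange y)) = _
      rw [AlgEquiv.symm_apply_apply]
      rfl)

section res
variable {K : Type} [Field K] [Algebra k K]

/-- at a rational place the constants are all of the residue field -/
theorem surj_of_rat {v : Place k K} (hv : Rat v) : Function.Surjective (algebraMap k (RF v)) := by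
  intro c
  obtain ⟨f, hf⟩ := exists_rep c
  obtain ⟨a, ha⟩ := hv f hf.reg
  exact ⟨a, (red_iff_val.2 ha).unique hf⟩

theorem funF_zero_of_surj {F : Type} [Field F] [Algebra k F]
    (h : Function.Surjective (algebraMap k F)) : FunF k 0 F := by
  refine ⟨Fin.elim0, ?_, ?_⟩
  · exact algebraicIndependent_empty_type
  · have h1 : FiniteDimensional k F := Module.Finite.of_surjective (Algebra.linearMap k F) h
    exact Module.Finite.right k _ F

theorem fld_top {F : Type} [Field F] [Algebra k F] (h : Function.Surjective (algebraMap k F))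
    {r : ℕ} {W : Fin r → WeierstrassCurve k} {Y : Prj k} (q : Pnt W Y F) :
    Module.finrank (fld q) F = 1 := by
  have h1 : fld q = ⊤ := by
    rw [eq_top_iff]
    intro x _
    obtain ⟨c, rfl⟩ := h x
    exact (fld q).algebraMap_mem c
  rw [h1]
  exact IntermediateField.finrank_top

theorem constPt_surj {F : Type} [Field F] [Algebra k F] (h : Function.Surjective (algebraMap k F))
    {V : WeierstrassCurve k} (p : (V⁄F).toAffine.Point) : ∃ a, constPt F a = p := by
  match p with
  | .zero => exact ⟨.zero, rfl⟩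
  | .some x y hp =>
    obtain ⟨x, rfl⟩ := h x
    obtain ⟨y, rfl⟩ := h y
    exact ⟨.some x y ((WeierstrassCurve.Affine.map_nonsingular V
      (algebraMap k F).injective x y).1 hp), rfl⟩

theorem spec_of_SpR {v : Place k K} {V : WeierstrassCurve k} {T : (V⁄K).toAffine.Point}
    {a : V.toAffine.Point} (h : SpR v T (constPt (RF v) a)) : Spec v T a := by
  match T, a with
  | .zero, .zero => rfl
  | .zero, .some x y _ => exact absurd h (by rintro ⟨⟩)
  | .some x y _, .zero => exact h
  | .some x y _, .some x0 y0 _ => exact ⟨red_iff_val.1 h.1, red_iff_val.1 h.2⟩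

/-- every point specialises -/
theorem SpV_exists {r : ℕ} {W : Fin r → WeierstrassCurve k} {Y : Prj k}
    (hW : ∀ i, (W i).IsElliptic) (v : Place k K) (u : Pnt W Y K) :
    ∃ q : Pnt W Y (RF v), SpV v u q := by
  have h1 : ∀ i, ∃ p : ((W i)⁄(RF v)).toAffine.Point, SpR v (u.z i) p := by
    intro i
    have := hW i
    exact SpR_exists v (u.z i)
  choose z hz using h1
  obtain ⟨j, hj⟩ : ∃ j, u.y j ≠ 0 := by
    by_contra h
    push Not at h
    exact u.y_ne (funext h)
  obtain ⟨j0, hj0, hmin⟩ : ∃ j0, u.y j0 ≠ 0 ∧ ∀ j, u.y j ≠ 0 → v.ord (u.y j0) ≤ v.ord (u.y j) := by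
    obtain ⟨j0, h1, h2⟩ := Finset.exists_min_image
      (Finset.univ.filter fun j => u.y j ≠ 0) (fun j => v.ord (u.y j)) ⟨j, by simp [hj]⟩
    refine ⟨j0, by simpa using h1, fun j hj => h2 j (by simp [hj])⟩
  have hreg : ∀ a, v.Reg ((u.y j0)⁻¹ * u.y a) := by
    intro a
    by_cases ha : u.y a = 0
    · rw [ha, mul_zero]
      exact v.reg_zero
    · right
      rw [v.ord_mul _ _ (inv_ne_zero hj0) ha, v.ord_inv]
      have := hmin a ha
      omega
  choose y hy using fun a => exists_red (hreg a)
  have h1 : y j0 = 1 := by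
    have h2 := hy j0
    rw [inv_mul_cancel₀ hj0] at h2
    exact h2.unique (red_one v)
  refine ⟨⟨z, y, fun h => one_ne_zero (h1.symm.trans (congrFun h j0)), ?_⟩,
    hz, (u.y j0)⁻¹, inv_ne_zero hj0, hy⟩
  intro f hf
  have hs := (Pnt.scale (u.y j0)⁻¹ (inv_ne_zero hj0) u).mem f hf
  have key : ∀ F : MvPolynomial (Fin (Y.N + 1)) k,
      Red v (MvPolynomial.aeval (fun a => (u.y j0)⁻¹ * u.y a) F) (MvPolynomial.aeval y F) := by
    intro F
    induction F using MvPolynomial.induction_on with
    | C a =>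
      rw [MvPolynomial.algHom_C, MvPolynomial.algHom_C]
      exact red_const v a
    | add p q hp hq =>
      rw [map_add, map_add]
      exact hp.add hq
    | mul_X p n hp =>
      rw [map_mul, map_mul, MvPolynomial.aeval_X, MvPolynomial.aeval_X]
      exact hp.mul (hy n)
  have h3 := key f
  have h4 : MvPolynomial.aeval (fun a => (u.y j0)⁻¹ * u.y a) f = 0 := hs
  rw [h4] at h3
  exact h3.unique (red_zero v)

end res

/-! ### the homomorphism -/

variable {W : Fin 2 → WeierstrassCurve k}

theorem ptc_inj {r : ℕ} {W : Fin r → WeierstrassCurve k} {a b : Pts W}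
    (h : eqs (ptc a) = eqs (ptc b)) : a = b := by
  have ha : Nrm (ptc a) := ⟨0, rfl, fun j hj => absurd hj (by simp)⟩
  have hb : Nrm (ptc b) := ⟨0, rfl, fun j hj => absurd hj (by simp)⟩
  have h1 : ptc a = ptc b := by
    apply pnt_ext
    intro s
    have h2 := aeval_iff ha hb h (MvPolynomial.X s - MvPolynomial.C (co (ptc a) s))
    simp only [map_sub, MvPolynomial.aeval_X, MvPolynomial.aeval_C, Algebra.algebraMap_self,
      RingHom.id_apply, sub_self, true_iff] at h2
    exact (sub_eq_zero.1 h2).symm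
  have h3 : ∀ i, constPt k (a i) = constPt k (b i) := fun i => congrFun (congrArg Pnt.z h1) i
  funext i
  have h4 := h3 i
  generalize a i = P at h4 ⊢
  generalize b i = Q at h4 ⊢
  match P, Q with
  | .zero, .zero => rfl
  | .zero, .some x y _ => exact absurd h4 (by rintro ⟨⟩)
  | .some x y _, .zero => exact absurd h4 (by rintro ⟨⟩)
  | .some x y _, .some x' y' _ =>
    have h5 := congrArg (fun p => hc p 0) h4
    have h6 := congrArg (fun p => hc p 1) h4
    have h7 : x = x' := h5
    have h8 : y = y' := h6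
    subst h7
    subst h8
    rfl

/-- the class in `CH0` of a set of equations -/
noncomputable def th (s : Set (MvPolynomial (Idx 2 (pt0 k).N) k)) : CH0 (W 0) (W 1) :=
  if h : ∃ a : Pts W, eqs (ptc a) = s then pt (h.choose 0) (h.choose 1) else 0

theorem th_ptc (a : Pts W) : th (eqs (ptc a)) = (pt (a 0) (a 1) : CH0 (W 0) (W 1)) := by
  have h : ∃ b : Pts W, eqs (ptc b) = eqs (ptc a) := ⟨a, rfl⟩
  unfold th
  rw [dif_pos h]
  have h1 : h.choose = a := ptc_inj h.choose_spec
  rw [h1]

/-- the class in `CH0` of a cycle of dimension zero -/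
noncomputable def thc (W : Fin 2 → WeierstrassCurve k) : Cyc 2 (pt0 k) →+ CH0 (W 0) (W 1) :=
  Finsupp.liftAddHom fun s => (smulAddHom ℤ (CH0 (W 0) (W 1))).flip (th (W := W) s)

theorem thc_single (s : Set (MvPolynomial (Idx 2 (pt0 k).N) k)) (n : ℤ) :
    thc W (Finsupp.single s n) = n • th (W := W) s := by
  simp [thc]

theorem cyc_of_surj {F : Type} [Field F] [Algebra k F] (h : Function.Surjective (algebraMap k F))
    (q : Pnt W (pt0 k) F) (a : Pts W) (ha : ∀ i, constPt F (a i) = q.z i) :
    cyc q = Finsupp.single (eqs (ptc a)) 1 := by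
  have h0 : q.y 0 ≠ 0 := by
    intro h1
    apply q.y_ne
    funext j
    rw [Subsingleton.elim j 0, h1]
    rfl
  have h1 : q = Pnt.scale (q.y 0) h0 ((ptc a).map (Algebra.ofId k F)) := by
    apply pnt_ext
    intro s
    rcases s with ⟨i, j⟩ | j
    · show hc (q.z i) j = hc (mp (Algebra.ofId k F) (constPt k (a i))) j
      rw [mp_const, ha]
    · show q.y j = q.y 0 * (Algebra.ofId k F) 1
      rw [map_one, mul_one, Subsingleton.elim j 0]
  unfold cyc
  rw [fld_top h, h1, eqs_scale, eqs_map]
  rfl

theorem thc_isDiv [IsAlgClosed k] (hW : ∀ i, (W i).IsElliptic) {c : Cyc 2 (pt0 k)}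
    (h : IsDiv W (pt0 k) 0 c) : thc W c = 0 := by
  obtain ⟨K, _, _, u, g, S, C, hK, hg, hS, hS', rfl⟩ := h
  have hK1 : FunF k 1 K := hK
  obtain ⟨ι, hι⟩ := exists_ratFunc hK1
  have hrat : ∀ v : Place k K, Function.Surjective (algebraMap k (RF v)) := fun v =>
    surj_of_rat (rat_of_funF hK1 v)
  choose q hq using fun v => SpV_exists hW v u
  choose p hp using fun v i => constPt_surj (hrat v) ((q v).z i)
  have h1 : ∀ v, cyc (q v) = Finsupp.single (eqs (ptc (p v))) 1 := fun v =>
    cyc_of_surj (hrat v) (q v) (p v) (hp v)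
  have h2 : ∀ v, v.ord g ≠ 0 → v ∈ S := by
    intro v hv
    by_contra hvS
    have h3 := hS' v hvS hv (funF_zero_of_surj (hrat v)) (q v) (hq v)
    rw [h1] at h3
    exact one_ne_zero (Finsupp.single_eq_zero.1 h3)
  have h3 : ∀ v ∈ S, C v = Finsupp.single (eqs (ptc (p v))) 1 := by
    intro v hv
    obtain ⟨_, q', hq', hC⟩ := hS v hv
    have h4 : ∀ i, constPt (RF v) (p v i) = q'.z i := by
      intro i
      rw [hp v i]
      exact SpR_unique ((hq v).1 i) (hq'.1 i)
    rw [hC, cyc_of_surj (hrat v) q' (p v) h4]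
  rw [map_sum]
  have h4 := rel (W₁ := W 0) (W₂ := W 1) ι hι (u.z 0) (u.z 1) hg S h2 (fun v => p v 0)
    (fun v => p v 1) (fun v hv => ⟨spec_of_SpR (by rw [hp]; exact (hq v).1 0),
      spec_of_SpR (by rw [hp]; exact (hq v).1 1)⟩)
  rw [← h4]
  refine Finset.sum_congr rfl fun v hv => ?_
  rw [map_zsmul, h3 v hv, thc_single, th_ptc, one_smul]

/-- the homomorphism from the Chow group of cycles of dimension zero to `CH0` -/
noncomputable def thCH [IsAlgClosed k] (hW : ∀ i, (W i).IsElliptic) :
    CH W (pt0 k) 0 →+ CH0 (W 0) (W 1) :=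
  QuotientAddGroup.lift (RatEq W (pt0 k) 0) (thc W) (by
    unfold RatEq
    rw [AddSubgroup.closure_le]
    intro c hc
    exact thc_isDiv hW hc)

theorem thCH_mk [IsAlgClosed k] (hW : ∀ i, (W i).IsElliptic) (c : Cyc 2 (pt0 k)) :
    thCH hW (QuotientAddGroup.mk c) = thc W c := rfl

/-- the class in the Chow group of the point `a` -/
noncomputable def ptC {r : ℕ} {W : Fin r → WeierstrassCurve k} (a : Pts W) : CH W (pt0 k) 0 :=
  QuotientAddGroup.mk (cyc (ptc a))

theorem thCH_ptC [IsAlgClosed k] (hW : ∀ i, (W i).IsElliptic) (a : Pts W) :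
    thCH hW (ptC a) = pt (a 0) (a 1) := by
  unfold ptC
  rw [thCH_mk, cyc_of_surj (F := k) Function.surjective_id (ptc a) a (fun i => rfl), thc_single,
    th_ptc, one_smul]

/-- The groups `Γ E` are orthogonal to each other and to themselves: for all elliptic curves `E` and
`E'` and all `P` in `Γ E` and `Q` in `Γ E'` the zero-cycle `(P, Q) - (P, 0) - (0, Q) + (0, 0)` is
torsion in the Chow group of the surface `E × E'`. -/
def PwC (Γ : Grid) : Prop :=
  ∀ W : Fin 2 → WeierstrassCurve Qb, (∀ i, (W i).IsElliptic) → ∀ a : Pts W,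
    (∀ i, a i ∈ Γ (W i)) → IsOfFinAddOrder
      (ptC a - ptC (Function.update a 1 0) - ptC (Function.update a 0 0) + ptC (0 : Pts W))

theorem pw_of_CH {Γ : Grid} (h : PwC Γ) : LibAC34.Pw Γ := by
  intro E E' hE hE' P hP Q hQ
  let W : Fin 2 → WeierstrassCurve Qb := ![E, E']
  have hW : ∀ i, (W i).IsElliptic := by
    intro i
    fin_cases i
    · exact hE
    · exact hE'
  let a : Pts W := Fin.cons P (Fin.cons Q (fun i => i.elim0))
  have ha : ∀ i, a i ∈ Γ (W i) := by
    intro i
    fin_cases i
    · exact hP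
    · exact hQ
  have h1 := (thCH hW).isOfFinAddOrder (h W hW a ha)
  rw [map_add, map_sub, map_sub, thCH_ptC, thCH_ptC, thCH_ptC, thCH_ptC] at h1
  exact h1

end Pool.Agent.LibAC6
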